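import Pool.Agent.W8.LS.Stm

open Complex (I)

namespace Pool.Agent.W697.LSC

open Pool.Agent.W8.LS

theorem Cover_proof : Cover := by
  intro hF hL x
  obtain ⟨hE, hAS, hSR, hPt, hActS, hSite, hFlip, hSC, hNS, hNg, hSiR, hSq, hRC, hSy, hTr⟩ := hF
  obtain ⟨hsq1, hsq0, -⟩ := hSq
  induction x using Quot.ind with
  | mk q =>
    obtain ⟨P, d⟩ := q
    by_cases hP : sing P
    · obtain ⟨k, l, m, r, s, c, rfl⟩ := hP
      cases d with
      | none =>
        refine ⟨Idx.B k l m r s c, (s, c, 0, 0), ?_, ?_⟩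
        · simp only [dom, UB, Set.mem_setOf_eq, sub_self, abs_zero, norm_zero, zero_mul]
          norm_num
        · simp only [ch, chB, if_true]
          rw [hsq0, zero_mul]
          rfl
      | some v =>
        refine ⟨Idx.A k l m r s c, (s, c, 0, v), ?_, ?_⟩
        · simp only [dom, UA, Set.mem_setOf_eq, sub_self, abs_zero, norm_zero, zero_mul]
          norm_num
        · simp only [ch, chA]
          rw [hsq0, mul_zero]
          rfl
    · obtain ⟨O, hPO, hO⟩ := hL hSC P hP
      refine ⟨Idx.reg O hO, P, hPO, ?_⟩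
      simp only [ch, chR]
      exact (hPt P P (some 0) d).2 ⟨hE.refl P, fun h => (hP h).elim⟩

end Pool.Agent.W697.LSC
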