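import Pool.Agent.W8.LS.Stm

open Complex (I)

namespace Pool.Agent.W697.LSF

open Pool.Agent.W8.LS

theorem Flip_proof : Flip := by
  intro k l m r s c z w
  refine ⟨⟨-1, k, l, -(k * l), 0, m, r, Or.inr rfl, ?_⟩, ⟨1, 0, 1, k, 0, 0, 0, Or.inl rfl, ?_⟩,
    ⟨1, 0, 0, 1, 0, 0, 0, Or.inl rfl, ?_⟩⟩
  · unfold site act
    refine Prod.ext ?_ (Prod.ext ?_ (Prod.ext ?_ ?_))
    · simp
      ring
    · simp
    · simp
      ring
    · simp
      ring
  · unfold site act
    refine Prod.ext ?_ (Prod.ext ?_ (Prod.ext ?_ ?_))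
    · simp
      ring
    · simp
    · simp
      ring
    · simp
  · unfold site act
    refine Prod.ext ?_ (Prod.ext ?_ (Prod.ext ?_ ?_))
    · simp
      ring
    · simp
    · simp
    · simp

end Pool.Agent.W697.LSF
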